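import Pool.Agent.V1157.SY.Count

/-!
# Moving the support of a compactly supported symplectomorphism
-/

set_option autoImplicit false

open Set Topology ContDiff Function Filter

namespace Pool.Agent.V1157.SY

variable {n : ℕ}

/-- Conjugation by a smooth path of dilations and translations. -/
theorem family_conj (φ : SympCt n) (l : ℝ) (w : V n) :
    ∃ (F : ℝ → SympCt n) (K : Set (V n)), IsCompact K ∧ (∀ s, F s ∈ SuppIn K) ∧
      ContDiff ℝ ∞ (uncurry fun t x => F t x) ∧ F 0 = φ ∧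
      ∀ x, F 1 x = Real.exp l • φ (Real.exp (-l) • (x - w)) + w := by
  let τ := Real.smoothTransition
  have hτ : ContDiff ℝ ∞ τ := Real.smoothTransition.contDiff
  have hτ0 : τ 0 = 0 := Real.smoothTransition.zero
  have hτ1 : τ 1 = 1 := Real.smoothTransition.one
  obtain ⟨R, hR0, hR⟩ := exists_ball φ
  let Ψ : ℝ → V n → V n := fun s x =>
    Real.exp (τ s * l) • φ (Real.exp (-(τ s * l)) • (x - τ s • w)) + τ s • w
  let C : ℝ × V n → V n := fun p => Real.exp (p.1 * l) • p.2 + p.1 • w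
  have hC : Continuous C := by fun_prop
  let K : Set (V n) := C '' (Icc 0 1 ×ˢ Metric.closedBall 0 R)
  have hK : IsCompact K := (isCompact_Icc.prod (isCompact_closedBall 0 R)).image hC
  have hΨ : ContDiff ℝ ∞ (uncurry Ψ) := by
    have h1 : ContDiff ℝ ∞ (fun p : ℝ × V n => Real.exp (τ p.1 * l)) :=
      Real.contDiff_exp.comp ((hτ.comp contDiff_fst).mul contDiff_const)
    have h2 : ContDiff ℝ ∞ (fun p : ℝ × V n => Real.exp (-(τ p.1 * l))) :=
      Real.contDiff_exp.comp ((hτ.comp contDiff_fst).mul contDiff_const).neg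
    have h3 : ContDiff ℝ ∞ (fun p : ℝ × V n => τ p.1 • w) :=
      (hτ.comp contDiff_fst).smul contDiff_const
    exact (h1.smul (φ.is.smooth.comp (h2.smul (contDiff_snd.sub h3)))).add h3
  have hee : ∀ r : ℝ, Real.exp r * Real.exp (-r) = 1 := fun r => by
    rw [← Real.exp_add, add_neg_cancel, Real.exp_zero]
  have hΨK : ∀ s, ∀ x ∉ K, Ψ s x = x := by
    intro s x hx
    have h1 : Real.exp (-(τ s * l)) • (x - τ s • w) ∉ Metric.closedBall (0 : V n) R := by
      intro h
      refine hx ⟨(τ s, Real.exp (-(τ s * l)) • (x - τ s • w)),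
        ⟨⟨Real.smoothTransition.nonneg s, Real.smoothTransition.le_one s⟩, h⟩, ?_⟩
      simp only [C, smul_smul, hee, one_smul, sub_add_cancel]
    simp only [Ψ]
    rw [hR _ h1, smul_smul, hee, one_smul, sub_add_cancel]
  have hsym : ∀ s x u v, om (fderiv ℝ (Ψ s) x u) (fderiv ℝ (Ψ s) x v) = om u v := by
    intro s x u v
    set r := τ s * l with hr
    have h1 : HasFDerivAt (fun y : V n => Real.exp (-r) • (y - τ s • w))
        (Real.exp (-r) • ContinuousLinearMap.id ℝ (V n)) x := by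
      have h0 : HasFDerivAt (fun y : V n => y - τ s • w) (ContinuousLinearMap.id ℝ (V n)) x :=
        (hasFDerivAt_id x).sub_const _
      exact h0.const_smul (Real.exp (-r))
    have h2 : HasFDerivAt φ (fderiv ℝ φ (Real.exp (-r) • (x - τ s • w)))
        (Real.exp (-r) • (x - τ s • w)) := (diff_of φ.is.smooth _).hasFDerivAt
    have h3 : HasFDerivAt (Ψ s) (Real.exp r •
        ((fderiv ℝ φ (Real.exp (-r) • (x - τ s • w))).comp
          (Real.exp (-r) • ContinuousLinearMap.id ℝ (V n)))) x :=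
      ((HasFDerivAt.comp x h2 h1).const_smul (Real.exp r)).add_const _
    rw [h3.fderiv]
    have h4 : ∀ z : V n, (Real.exp r • ((fderiv ℝ φ (Real.exp (-r) • (x - τ s • w))).comp
          (Real.exp (-r) • ContinuousLinearMap.id ℝ (V n)))) z =
        fderiv ℝ φ (Real.exp (-r) • (x - τ s • w)) z := by
      intro z
      simp only [smul_apply, ContinuousLinearMap.comp_apply, ContinuousLinearMap.id_apply,
        map_smul, smul_smul, hee, one_smul]
    rw [h4, h4, φ.is.symp]
  obtain ⟨F, hF⟩ := exists_family Ψ hΨ hsym hK hΨK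
  have hFΨ : (uncurry fun s x => F s x) = uncurry Ψ := by
    funext ⟨s, x⟩
    exact hF s x
  refine ⟨F, K, hK, ?_, ?_, ?_, ?_⟩
  · intro s x hx
    rw [hF]; exact hΨK s x hx
  · rw [hFΨ]; exact hΨ
  · refine SympCt.ext fun x => ?_
    rw [hF]
    simp [Ψ, hτ0]
  · intro x
    rw [hF]
    simp [Ψ, hτ1]

/-- Elements with disjoint supports commute. -/
theorem commute_of_disjoint {K L : Set (V n)} (h : Disjoint K L) {φ ψ : SympCt n}
    (hφ : φ ∈ SuppIn K) (hψ : ψ ∈ SuppIn L) : φ * ψ = ψ * φ := by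
  have key : ∀ {K : Set (V n)} {φ : SympCt n}, φ ∈ SuppIn K → ∀ x ∈ K, φ x ∈ K := by
    intro K φ hφ x hx
    by_contra h1
    exact h1 (by rw [φ.perm.injective (hφ _ h1)]; exact hx)
  refine SympCt.ext fun x => ?_
  rw [SympCt.mul_apply, SympCt.mul_apply]
  by_cases hx : x ∈ K
  · have h1 : x ∉ L := disjoint_left.1 h hx
    have h2 : φ x ∉ L := disjoint_left.1 h (key hφ x hx)
    rw [hψ x h1, hψ _ h2]
  · rw [hφ x hx]
    by_cases hx' : x ∈ L
    · exact hφ _ (disjoint_right.1 h (key hψ x hx'))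
    · rw [hψ x hx', hφ x hx]

theorem joined_comm (φ ψ : SympCt n) : Joined (φ * ψ) (ψ * φ) := by
  rcases subsingleton_or_nontrivial (V n) with hs | hs
  · have : φ * ψ = ψ * φ := SympCt.ext fun x => Subsingleton.elim _ _
    rw [this]
  obtain ⟨R₁, hR₁, h1⟩ := exists_ball φ
  obtain ⟨R₂, hR₂, h2⟩ := exists_ball ψ
  obtain ⟨w, hw⟩ := NormedSpace.exists_lt_norm ℝ (V n) (R₁ + R₂)
  obtain ⟨F, K, hK, hFK, hF, hF0, hF1⟩ := family_conj ψ 0 w
  have hψ' : F 1 ∈ SuppIn (Metric.closedBall w R₂) := by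
    intro x hx
    rw [hF1, neg_zero, Real.exp_zero, one_smul, one_smul, h2, sub_add_cancel]
    simpa [dist_eq_norm] using hx
  have hdisj : Disjoint (Metric.closedBall (0 : V n) R₁) (Metric.closedBall w R₂) := by
    refine Metric.closedBall_disjoint_closedBall ?_
    rw [dist_comm, dist_zero_right]
    exact hw
  have hcomm := commute_of_disjoint hdisj h1 hψ'
  obtain ⟨j1, j2⟩ := joined_mul hK hFK hF φ
  rw [hF0] at j1 j2
  rw [hcomm] at j1
  exact j1.trans j2.symm

theorem small_support (φ : SympCt n) {U : Set (V n)} (hU : IsOpen U) (hne : U.Nonempty) :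
    ∃ ψ : SympCt n, Joined φ ψ ∧ ψ ∈ SuppIn U := by
  obtain ⟨x₀, hx₀⟩ := hne
  obtain ⟨ε, hε, hεU⟩ := Metric.isOpen_iff.1 hU x₀ hx₀
  obtain ⟨R, hR, h1⟩ := exists_ball φ
  obtain ⟨F, K, hK, hFK, hF, hF0, hF1⟩ := family_conj φ (Real.log (ε / (2 * R))) x₀
  refine ⟨F 1, ?_, ?_⟩
  · have := joined_of_smooth F hK (fun s _ => hFK s) hF
    rwa [hF0] at this
  · intro x hx
    have hr : 0 < ε / (2 * R) := by positivity
    rw [hF1, Real.exp_neg, Real.exp_log hr]
    have h2 : ε ≤ ‖x - x₀‖ := by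
      by_contra h
      push Not at h
      exact hx (hεU (by rw [Metric.mem_ball, dist_eq_norm]; exact h))
    have h3 : (ε / (2 * R))⁻¹ • (x - x₀) ∉ Metric.closedBall (0 : V n) R := by
      rw [Metric.mem_closedBall, dist_zero_right, norm_smul, Real.norm_eq_abs,
        abs_of_pos (inv_pos.2 hr), not_le, inv_div]
      calc R < 2 * R := by linarith
        _ = 2 * R / ε * ε := by field_simp
        _ ≤ 2 * R / ε * ‖x - x₀‖ := by gcongr
    rw [h1 _ h3, smul_smul, mul_inv_cancel₀ hr.ne', one_smul, sub_add_cancel]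

theorem joined_crit (φ : SympCt n) (hφ : NoEig φ) : Joined 1 φ := by
  obtain ⟨K, hK, h⟩ := φ.is.supp
  obtain ⟨F, h1, h2, h3, h4⟩ := family_crit φ hφ hK h
  have := joined_of_smooth F hK (fun s _ => h2 s) h1
  rwa [h3, h4] at this

end Pool.Agent.V1157.SY
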