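import Pool.Agent.V1157.SY.Crit

/-!
# The group of compactly supported symplectomorphisms has countably many path components
-/

set_option autoImplicit false

open Set Topology ContDiff Function Filter

namespace Pool.Agent.V1157.SY

variable {n : ℕ}

theorem suppIn_mono {K L : Set (V n)} (h : K ⊆ L) {φ : SympCt n} (hφ : φ ∈ SuppIn K) :
    φ ∈ SuppIn L := fun x hx => hφ x (fun hk => hx (h hk))

theorem suppIn_mul {K L : Set (V n)} {φ ψ : SympCt n} (hφ : φ ∈ SuppIn K) (hψ : ψ ∈ SuppIn L) :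
    φ * ψ ∈ SuppIn (K ∪ L) := by
  intro x hx
  rw [mem_union, not_or] at hx
  rw [SympCt.mul_apply, hψ x hx.2, hφ x hx.1]

theorem suppIn_inv {K : Set (V n)} {φ : SympCt n} (hφ : φ ∈ SuppIn K) : φ⁻¹ ∈ SuppIn K := by
  intro x hx
  change φ.perm.symm x = x
  rw [Equiv.symm_apply_eq]
  exact (hφ x hx).symm

theorem exists_ball (φ : SympCt n) : ∃ R : ℝ, 0 < R ∧ φ ∈ SuppIn (Metric.closedBall 0 R) := by
  obtain ⟨K, hK, h⟩ := φ.is.supp
  obtain ⟨R, hR, hKR⟩ := hK.isBounded.subset_closedBall_lt 0 0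
  exact ⟨R, hR, fun x hx => h x (fun hk => hx (hKR hk))⟩

theorem fderiv_off {K : Set (V n)} (hK : IsClosed K) {φ : SympCt n} (hφ : φ ∈ SuppIn K)
    {x : V n} (hx : x ∉ K) : fderiv ℝ φ x = ContinuousLinearMap.id ℝ (V n) := by
  have : (φ : V n → V n) =ᶠ[𝓝 x] id := by
    filter_upwards [hK.isOpen_compl.mem_nhds hx] with y hy
    exact hφ y hy
  rw [this.fderiv_eq, fderiv_id]

theorem fderiv_inv (φ : SympCt n) (x v : V n) :
    fderiv ℝ φ ((φ⁻¹ : SympCt n) x) (fderiv ℝ (φ⁻¹ : SympCt n) x v) = v := by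
  have h1 : (fderiv ℝ φ ((φ⁻¹ : SympCt n) x)).comp (fderiv ℝ (φ⁻¹ : SympCt n) x) =
      ContinuousLinearMap.id ℝ _ := by
    rw [← fderiv_comp x (diff_of φ.is.smooth _) (diff_of (φ⁻¹).is.smooth _)]
    have : ((φ : V n → V n) ∘ (φ⁻¹ : SympCt n)) = id := by
      funext y
      exact φ.perm.apply_symm_apply y
    rw [this, fderiv_id]
  have := congrArg (fun L : V n →L[ℝ] V n => L v) h1
  simpa using this

/-- Elements which are `C¹`-close are in the same path component. -/
theorem near {K : Set (V n)} (hK : IsCompact K) {φ : SympCt n} (hφ : φ ∈ SuppIn K) :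
    ∃ δ > 0, ∀ ψ ∈ SuppIn K, (∀ x ∈ K, ‖fderiv ℝ ψ x - fderiv ℝ φ x‖ < δ) → Joined φ ψ := by
  have hc : Continuous (fun x => fderiv ℝ (φ⁻¹ : SympCt n) x) :=
    (φ⁻¹).is.smooth.continuous_fderiv (by simp)
  obtain ⟨M, hM⟩ := hK.exists_bound_of_continuousOn hc.continuousOn
  have hM' : ∀ x, ‖fderiv ℝ (φ⁻¹ : SympCt n) x‖ ≤ max M 1 := by
    intro x
    by_cases hx : x ∈ K
    · exact (hM x hx).trans (le_max_left _ _)
    · rw [fderiv_off hK.isClosed (suppIn_inv hφ) hx]
      exact ContinuousLinearMap.norm_id_le.trans (le_max_right _ _)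
  have hM0 : 0 < max M 1 := lt_of_lt_of_le one_pos (le_max_right _ _)
  refine ⟨1 / max M 1, by positivity, fun ψ hψ hd => ?_⟩
  have hd' : ∀ x, ‖fderiv ℝ ψ x - fderiv ℝ φ x‖ ≤ 1 / max M 1 := by
    intro x
    by_cases hx : x ∈ K
    · exact (hd x hx).le
    · rw [fderiv_off hK.isClosed hψ hx, fderiv_off hK.isClosed hφ hx, sub_self, norm_zero]
      positivity
  have hχ : NoEig (ψ * φ⁻¹) := by
    intro x v c hc1 hv
    set y := (φ⁻¹ : SympCt n) x with hy
    set w := fderiv ℝ (φ⁻¹ : SympCt n) x v with hw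
    have h1 : fderiv ℝ (ψ * φ⁻¹ : SympCt n) x = (fderiv ℝ ψ y).comp
        (fderiv ℝ (φ⁻¹ : SympCt n) x) :=
      fderiv_comp x (diff_of ψ.is.smooth _) (diff_of (φ⁻¹).is.smooth _)
    have h2 : fderiv ℝ ψ y w = c • v := by
      rw [← hv, h1]; rfl
    have h3 : fderiv ℝ φ y w = v := fderiv_inv φ x v
    have h4 : (fderiv ℝ ψ y - fderiv ℝ φ y) w = (c - 1) • v := by
      rw [sub_apply, h2, h3, sub_smul, one_smul]
    have h5 : ‖(c - 1) • v‖ ≤ ‖v‖ := by
      rw [← h4]
      calc ‖(fderiv ℝ ψ y - fderiv ℝ φ y) w‖ ≤ ‖fderiv ℝ ψ y - fderiv ℝ φ y‖ * ‖w‖ :=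
            ContinuousLinearMap.le_opNorm _ _
        _ ≤ (1 / max M 1) * (max M 1 * ‖v‖) := by
            refine mul_le_mul (hd' y) ?_ (norm_nonneg _) (by positivity)
            exact (ContinuousLinearMap.le_opNorm _ _).trans
              (mul_le_mul_of_nonneg_right (hM' x) (norm_nonneg _))
        _ = ‖v‖ := by field_simp
    rw [norm_smul, Real.norm_eq_abs, abs_of_neg (by linarith)] at h5
    have h6 : ‖v‖ ≤ 0 := by nlinarith [norm_nonneg v]
    exact norm_le_zero_iff.1 h6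
  have hsupp : ψ * φ⁻¹ ∈ SuppIn K := by
    have := suppIn_mul hψ (suppIn_inv hφ)
    rwa [union_self] at this
  obtain ⟨F, hF1, hF2, hF3, hF4⟩ := family_crit (ψ * φ⁻¹) hχ hK hsupp
  have hj := joined_of_smooth (fun s => F s * φ) hK (fun s _ => by
    have := suppIn_mul (hF2 s) hφ
    rwa [union_self] at this) (by
      have : (uncurry fun t x => (F t * φ : SympCt n) x) =
          (uncurry fun s x => F s x) ∘ fun p : ℝ × V n => (p.1, φ p.2) := rfl
      rw [this]
      exact hF1.comp (contDiff_fst.prodMk (φ.is.smooth.comp contDiff_snd)))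
  simp only [hF3, hF4, one_mul, inv_mul_cancel_right] at hj
  exact hj

/-- Multiplying a smooth family from the left or from the right. -/
theorem joined_mul {F : ℝ → SympCt n} {K : Set (V n)} (hK : IsCompact K)
    (hFK : ∀ s, F s ∈ SuppIn K) (hF : ContDiff ℝ ∞ (uncurry fun t x => F t x)) (φ : SympCt n) :
    Joined (φ * F 0) (φ * F 1) ∧ Joined (F 0 * φ) (F 1 * φ) := by
  obtain ⟨R, -, hR⟩ := exists_ball φ
  have hB : IsCompact (Metric.closedBall (0 : V n) R) := isCompact_closedBall _ _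
  constructor
  · refine joined_of_smooth (fun s => φ * F s) (hB.union hK) (fun s _ => suppIn_mul hR (hFK s)) ?_
    have : (uncurry fun t x => (φ * F t : SympCt n) x) = φ ∘ (uncurry fun s x => F s x) := rfl
    rw [this]
    exact φ.is.smooth.comp hF
  · refine joined_of_smooth (fun s => F s * φ) (hK.union hB) (fun s _ => suppIn_mul (hFK s) hR) ?_
    have : (uncurry fun t x => (F t * φ : SympCt n) x) =
        (uncurry fun s x => F s x) ∘ fun p : ℝ × V n => (p.1, φ p.2) := rfl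
    rw [this]
    exact hF.comp (contDiff_fst.prodMk (φ.is.smooth.comp contDiff_snd))

/-- The restriction of the differential to a compact set. -/
noncomputable def jK (K : Set (V n)) (φ : SuppIn K) : C(K, V n →L[ℝ] V n) :=
  ⟨fun x => fderiv ℝ φ.1 x, (φ.1.is.smooth.continuous_fderiv (by simp)).comp
    continuous_subtype_val⟩

theorem exists_countable {K : Set (V n)} (hK : IsCompact K) :
    ∃ S : Set (SympCt n), S.Countable ∧ ∀ φ ∈ SuppIn K, ∃ ψ ∈ S, Joined φ ψ := by
  have : CompactSpace K := isCompact_iff_compactSpace.1 hK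
  have h1 : TopologicalSpace.IsSeparable (range (jK K)) := TopologicalSpace.IsSeparable.of_separableSpace _
  obtain ⟨t, ht1, ht2, ht3⟩ := h1.exists_countable_dense_subset
  choose g hg using fun f : t => ht1 f.2
  have : Countable t := ht2.to_subtype
  refine ⟨range fun f : t => (g f).1, countable_range _, fun φ hφ => ?_⟩
  obtain ⟨δ, hδ, hδ2⟩ := near hK hφ
  have h2 : jK K ⟨φ, hφ⟩ ∈ closure t := ht3 (mem_range_self _)
  obtain ⟨f, hf, hdist⟩ := (Metric.mem_closure_iff (s := t) (a := jK K ⟨φ, hφ⟩)).1 h2 δ hδ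
  refine ⟨(g ⟨f, hf⟩).1, mem_range_self _, hδ2 _ (g ⟨f, hf⟩).2 fun x hx => ?_⟩
  have h3 := (ContinuousMap.dist_lt_iff hδ).1 hdist ⟨x, hx⟩
  rw [dist_comm, dist_eq_norm] at h3
  have h4 : f = jK K (g ⟨f, hf⟩) := (hg ⟨f, hf⟩).symm
  rw [h4] at h3
  exact h3

theorem countable_components : Countable (ZerothHomotopy (SympCt n)) := by
  choose S hS1 hS2 using fun m : ℕ => exists_countable (n := n) (isCompact_closedBall 0 (m : ℝ))
  have hc : (⋃ m, S m).Countable := countable_iUnion hS1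
  have := hc.to_subtype
  refine Function.Surjective.countable
    (f := fun φ : (⋃ m, S m : Set (SympCt n)) => (Quotient.mk (pathSetoid (SympCt n)) φ.1)) ?_
  intro q
  induction q using Quotient.inductionOn with
  | h φ =>
    obtain ⟨R, -, hR⟩ := exists_ball φ
    obtain ⟨m, hm⟩ := exists_nat_ge R
    obtain ⟨ψ, hψ, hj⟩ := hS2 m φ (suppIn_mono (Metric.closedBall_subset_closedBall hm) hR)
    exact ⟨⟨ψ, mem_iUnion.2 ⟨m, hψ⟩⟩, Quotient.sound hj.symm⟩

end Pool.Agent.V1157.SY
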