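import Pool.Agent.V1157.SY.Glob

/-!
# Symplectomorphisms whose differentials have no eigenvalue `≤ -1`
-/

set_option autoImplicit false

open Set Topology ContDiff Function Filter

namespace Pool.Agent.V1157.SY

variable {n : ℕ}

theorem om_comb (p q : ℝ) (u v u' v' : V n) :
    om (p • u + q • u') (p • v + q • v') =
      p * p * om u v + q * q * om u' v' + p * q * (om u v' + om u' v) := by
  simp only [om, Finset.mul_sum, ← Finset.sum_add_distrib]
  refine Finset.sum_congr rfl fun i _ => ?_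
  simp only [Prod.fst_add, Prod.snd_add, Prod.smul_fst, Prod.smul_snd, Pi.add_apply,
    Pi.smul_apply, smul_eq_mul]
  ring

theorem om_nondeg {v : V n} (h : ∀ w, om v w = 0) : v = 0 := by
  classical
  have h1 : ∀ i, v.1 i = 0 := by
    intro i
    have := h (0, Pi.single i 1)
    simp only [om, Pi.zero_apply] at this
    rw [Finset.sum_eq_single i] at this
    · simpa using this
    · intro j _ hj; simp [hj]
    · simp
  have h2 : ∀ i, v.2 i = 0 := by
    intro i
    have := h (Pi.single i 1, 0)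
    simp only [om, Pi.zero_apply, mul_zero, zero_sub] at this
    rw [Finset.sum_eq_single i] at this
    · simpa using this
    · intro j _ hj; simp [hj]
    · simp
  exact Prod.ext (funext h1) (funext h2)

/-- No differential of `φ` has a real eigenvalue `≤ -1`. -/
def NoEig (φ : SympCt n) : Prop :=
  ∀ (x v : V n) (c : ℝ), c ≤ -1 → fderiv ℝ φ x v = c • v → v = 0

/-- Building an element from a smooth symplectic map which is the identity outside a compact
set. -/
theorem exists_family (Ψ : ℝ → V n → V n) (hΨ : ContDiff ℝ ∞ (uncurry Ψ))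
    (hs : ∀ s x u v, om (fderiv ℝ (Ψ s) x u) (fderiv ℝ (Ψ s) x v) = om u v)
    {K : Set (V n)} (hK : IsCompact K) (hΨK : ∀ s, ∀ x ∉ K, Ψ s x = x) :
    ∃ F : ℝ → SympCt n, (∀ s x, F s x = Ψ s x) := by
  have hinj : ∀ s u, Injective (fderiv ℝ (Ψ s) u) := by
    intro s u
    rw [injective_iff_map_eq_zero]
    intro v hv
    refine om_nondeg fun w => ?_
    rw [← hs s u, hv]
    simp [om]
  obtain ⟨c, hc, h1, h2, h3⟩ := exists_inv Ψ hΨ hinj hK hΨK
  refine ⟨fun s => ⟨⟨Ψ s, c s, h1 s, h2 s⟩, ?_⟩, fun s x => rfl⟩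
  exact ⟨hΨ.comp (contDiff_prodMk_right s), hc.comp (contDiff_prodMk_right s), hs s,
    ⟨K, hK, hΨK s⟩⟩

theorem family_crit (φ : SympCt n) (hφ : NoEig φ) {K : Set (V n)} (hK : IsCompact K)
    (hφK : φ ∈ SuppIn K) :
    ∃ F : ℝ → SympCt n, ContDiff ℝ ∞ (uncurry fun s x => F s x) ∧ (∀ s, F s ∈ SuppIn K) ∧
      F 0 = 1 ∧ F 1 = φ := by
  let τ := Real.smoothTransition
  have hτ : ContDiff ℝ ∞ τ := Real.smoothTransition.contDiff
  let p : ℝ → ℝ := fun s => (1 + τ s) / 2
  let q : ℝ → ℝ := fun s => (1 - τ s) / 2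
  have hp : ContDiff ℝ ∞ p := (contDiff_const.add hτ).div_const 2
  have hq : ContDiff ℝ ∞ q := (contDiff_const.sub hτ).div_const 2
  have hpq : ∀ s, p s + q s = 1 := fun s => by simp only [p, q]; ring
  have hq0 : ∀ s, 0 ≤ q s := fun s => by
    have := Real.smoothTransition.le_one s
    simp only [q, τ]; linarith
  have hqp : ∀ s, q s ≤ p s := fun s => by
    have := Real.smoothTransition.nonneg s
    simp only [q, p, τ]; linarith
  have hφs := φ.is.smooth
  have hφd : ∀ x, HasFDerivAt φ (fderiv ℝ φ x) x := fun x => (diff_of hφs x).hasFDerivAt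
  let a : ℝ → V n → V n := fun s u => p s • u + q s • φ u
  let β : ℝ → V n → V n := fun s u => q s • u + p s • φ u
  have hcomb : ∀ f g : ℝ → ℝ, ContDiff ℝ ∞ f → ContDiff ℝ ∞ g →
      ContDiff ℝ ∞ (uncurry fun s (u : V n) => f s • u + g s • φ u) := by
    intro f g hf hg
    exact ((hf.comp contDiff_fst).smul contDiff_snd).add
      ((hg.comp contDiff_fst).smul (hφs.comp contDiff_snd))
  have ha : ContDiff ℝ ∞ (uncurry a) := hcomb p q hp hq
  have hβ : ContDiff ℝ ∞ (uncurry β) := hcomb q p hq hp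
  have had : ∀ s u, HasFDerivAt (a s) (p s • ContinuousLinearMap.id ℝ (V n) +
      q s • fderiv ℝ φ u) u := fun s u =>
    ((hasFDerivAt_id u).const_smul (p s)).add ((hφd u).const_smul (q s))
  have hβd : ∀ s u, HasFDerivAt (β s) (q s • ContinuousLinearMap.id ℝ (V n) +
      p s • fderiv ℝ φ u) u := fun s u =>
    ((hasFDerivAt_id u).const_smul (q s)).add ((hφd u).const_smul (p s))
  have hainj : ∀ s u, Injective (fderiv ℝ (a s) u) := by
    intro s u
    rw [(had s u).fderiv, injective_iff_map_eq_zero]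
    intro v hv
    simp only [add_apply, smul_apply,
      ContinuousLinearMap.id_apply] at hv
    rcases (hq0 s).eq_or_lt with h0 | h0
    · have h1 : p s = 1 := by have := hpq s; rw [← h0] at this; linarith
      rw [h1, ← h0] at hv
      simpa using hv
    · refine hφ u v (-(p s / q s)) ?_ ?_
      · have : 1 ≤ p s / q s := (one_le_div h0).2 (hqp s)
        linarith
      · have h2 : q s • fderiv ℝ φ u v = -(p s • v) := by
          rw [eq_neg_iff_add_eq_zero, add_comm]; exact hv
        have h3 : fderiv ℝ φ u v = (q s)⁻¹ • (q s • fderiv ℝ φ u v) := by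
          rw [smul_smul, inv_mul_cancel₀ h0.ne', one_smul]
        rw [h3, h2, smul_neg, smul_smul, neg_smul, div_eq_inv_mul]
  have haK : ∀ s, ∀ x ∉ K, a s x = x := by
    intro s x hx
    simp only [a]
    rw [hφK x hx, ← add_smul, hpq, one_smul]
  have hβK : ∀ s, ∀ x ∉ K, β s x = x := by
    intro s x hx
    simp only [β]
    rw [hφK x hx, ← add_smul, add_comm, hpq, one_smul]
  obtain ⟨b, hb, hba, hab, hbK⟩ := exists_inv a ha hainj hK haK
  let Ψ : ℝ → V n → V n := fun s x => β s (b s x)
  have hΨ : ContDiff ℝ ∞ (uncurry Ψ) :=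
    hβ.comp (contDiff_fst.prodMk hb)
  have hΨK : ∀ s, ∀ x ∉ K, Ψ s x = x := by
    intro s x hx
    simp only [Ψ]
    rw [hbK s x hx, hβK s x hx]
  have hΨs : ∀ s, Differentiable ℝ (Ψ s) := fun s =>
    diff_of (hΨ.comp (contDiff_prodMk_right s))
  have hsym : ∀ s x u v, om (fderiv ℝ (Ψ s) x u) (fderiv ℝ (Ψ s) x v) = om u v := by
    intro s x w₁ w₂
    set y := b s x with hy
    have hx : a s y = x := hab s x
    have hsurj : Surjective (fderiv ℝ (a s) y) := by
      obtain ⟨e, he⟩ := exists_equiv _ (hainj s y)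
      rw [← he]; exact e.surjective
    obtain ⟨v₁, hv₁⟩ := hsurj w₁
    obtain ⟨v₂, hv₂⟩ := hsurj w₂
    have hcomp : (fderiv ℝ (Ψ s) x).comp (fderiv ℝ (a s) y) = fderiv ℝ (β s) y := by
      have h1 : HasFDerivAt (Ψ s ∘ a s) ((fderiv ℝ (Ψ s) x).comp (fderiv ℝ (a s) y)) y := by
        refine HasFDerivAt.comp y ?_ (had s y).differentiableAt.hasFDerivAt
        rw [hx]; exact (hΨs s x).hasFDerivAt
      have h2 : Ψ s ∘ a s = β s := by
        funext u
        simp only [Function.comp_apply, Ψ]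
        rw [hba]
      rw [h2] at h1
      exact h1.fderiv.symm
    have hc1 : fderiv ℝ (Ψ s) x w₁ = fderiv ℝ (β s) y v₁ := by
      rw [← hcomp, ContinuousLinearMap.comp_apply, hv₁]
    have hc2 : fderiv ℝ (Ψ s) x w₂ = fderiv ℝ (β s) y v₂ := by
      rw [← hcomp, ContinuousLinearMap.comp_apply, hv₂]
    rw [hc1, hc2, ← hv₁, ← hv₂, (hβd s y).fderiv, (had s y).fderiv]
    simp only [add_apply, smul_apply,
      ContinuousLinearMap.id_apply]
    rw [om_comb, om_comb, φ.is.symp]
    ring
  obtain ⟨F, hF⟩ := exists_family Ψ hΨ hsym hK hΨK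
  have hFΨ : (uncurry fun s x => F s x) = uncurry Ψ := by
    funext ⟨s, x⟩
    exact hF s x
  refine ⟨F, ?_, ?_, ?_, ?_⟩
  · rw [hFΨ]; exact hΨ
  · intro s x hx
    rw [hF]; exact hΨK s x hx
  · refine SympCt.ext fun x => ?_
    rw [hF, SympCt.one_apply]
    have h0 : β 0 = a 0 := by
      funext u
      have : τ 0 = 0 := Real.smoothTransition.zero
      simp only [a, β, p, q, this, add_zero, sub_zero]
    simp only [Ψ]
    rw [h0, hab]
  · refine SympCt.ext fun x => ?_
    rw [hF]
    have h1 : τ 1 = 1 := Real.smoothTransition.one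
    have h2 : b 1 x = x := by
      have := hab 1 x
      simp only [a, p, q, h1, sub_self, zero_div, zero_smul, add_zero] at this
      norm_num at this
      exact this
    simp only [Ψ, β, p, q, h1, sub_self, zero_div, zero_smul, zero_add, h2]
    norm_num

end Pool.Agent.V1157.SY
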