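import Mathlib

/-!
# The group of compactly supported symplectomorphisms of `ℝ^{2n}`

`SympCt n` is the group of the smooth diffeomorphisms of `ℝ^{2n}` which preserve the standard
symplectic form and are the identity outside some compact set. Its topology is the direct limit,
over the compact sets `K`, of the `C^∞` topologies of the subgroups supported in `K`.
-/

set_option autoImplicit false

open Set Topology ContDiff

namespace Pool.Agent.V1157.SY

/-- The space `ℝ^{2n}`, with coordinates `(x, y)`. -/
abbrev V (n : ℕ) : Type := (Fin n → ℝ) × (Fin n → ℝ)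

/-- The standard symplectic form `∑ dx_i ∧ dy_i`. -/
def om {n : ℕ} (u v : V n) : ℝ := ∑ i, (u.1 i * v.2 i - u.2 i * v.1 i)

/-- The conditions on a compactly supported symplectomorphism. -/
structure IsSympCt {n : ℕ} (φ : Equiv.Perm (V n)) : Prop where
  smooth : ContDiff ℝ ∞ φ
  smooth_symm : ContDiff ℝ ∞ φ.symm
  symp : ∀ x u v, om (fderiv ℝ φ x u) (fderiv ℝ φ x v) = om u v
  supp : ∃ K : Set (V n), IsCompact K ∧ ∀ x ∉ K, φ x = x

variable {n : ℕ}

theorem diff_of {f : V n → V n} (h : ContDiff ℝ ∞ f) : Differentiable ℝ f :=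
  h.differentiable (by simp)

theorem isSympCt_one : IsSympCt (1 : Equiv.Perm (V n)) where
  smooth := contDiff_id
  smooth_symm := contDiff_id
  symp := by
    intro x u v
    have : fderiv ℝ (⇑(1 : Equiv.Perm (V n))) x = ContinuousLinearMap.id ℝ _ := fderiv_id
    rw [this]; rfl
  supp := ⟨∅, isCompact_empty, fun _ _ => rfl⟩

theorem IsSympCt.mul {φ ψ : Equiv.Perm (V n)} (hφ : IsSympCt φ) (hψ : IsSympCt ψ) :
    IsSympCt (φ * ψ) where
  smooth := hφ.smooth.comp hψ.smooth
  smooth_symm := hψ.smooth_symm.comp hφ.smooth_symm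
  symp := by
    intro x u v
    have h : fderiv ℝ (⇑(φ * ψ)) x = (fderiv ℝ φ (ψ x)).comp (fderiv ℝ ψ x) :=
      fderiv_comp x (diff_of hφ.smooth _) (diff_of hψ.smooth _)
    rw [h]
    simp only [ContinuousLinearMap.comp_apply]
    rw [hφ.symp, hψ.symp]
  supp := by
    obtain ⟨K, hK, h1⟩ := hφ.supp
    obtain ⟨L, hL, h2⟩ := hψ.supp
    refine ⟨K ∪ L, hK.union hL, fun x hx => ?_⟩
    rw [mem_union, not_or] at hx
    rw [Equiv.Perm.mul_apply, h2 x hx.2, h1 x hx.1]

theorem IsSympCt.inv {φ : Equiv.Perm (V n)} (hφ : IsSympCt φ) : IsSympCt φ⁻¹ where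
  smooth := hφ.smooth_symm
  smooth_symm := hφ.smooth
  symp := by
    intro x u v
    have hcomp : (fderiv ℝ φ (φ.symm x)).comp (fderiv ℝ φ.symm x) =
        ContinuousLinearMap.id ℝ _ := by
      rw [← fderiv_comp x (diff_of hφ.smooth _) (diff_of hφ.smooth_symm _)]
      have : (φ ∘ φ.symm : V n → V n) = id := by funext y; simp
      rw [this, fderiv_id]
    have h := hφ.symp (φ.symm x) (fderiv ℝ φ.symm x u) (fderiv ℝ φ.symm x v)
    have e1 : fderiv ℝ φ (φ.symm x) (fderiv ℝ φ.symm x u) = u := by
      have := congrArg (fun L : V n →L[ℝ] V n => L u) hcomp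
      simpa using this
    have e2 : fderiv ℝ φ (φ.symm x) (fderiv ℝ φ.symm x v) = v := by
      have := congrArg (fun L : V n →L[ℝ] V n => L v) hcomp
      simpa using this
    rw [e1, e2] at h
    exact h.symm
  supp := by
    obtain ⟨K, hK, h1⟩ := hφ.supp
    refine ⟨K, hK, fun x hx => ?_⟩
    change φ.symm x = x
    rw [Equiv.symm_apply_eq, h1 x hx]

variable (n) in
/-- The group of compactly supported symplectomorphisms of `(ℝ^{2n}, ∑ dx_i ∧ dy_i)`. -/
def sympSubgroup : Subgroup (Equiv.Perm (V n)) where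
  carrier := {φ | IsSympCt φ}
  one_mem' := isSympCt_one
  mul_mem' := fun h1 h2 => h1.mul h2
  inv_mem' := fun h => h.inv

variable (n) in
/-- The type of the compactly supported symplectomorphisms of `(ℝ^{2n}, ∑ dx_i ∧ dy_i)`. -/
def SympCt : Type := sympSubgroup n

instance : Group (SympCt n) := inferInstanceAs (Group (sympSubgroup n))

/-- The underlying bijection. -/
def SympCt.perm (φ : SympCt n) : Equiv.Perm (V n) := φ.1

instance : CoeFun (SympCt n) (fun _ => V n → V n) := ⟨fun φ => φ.perm⟩

theorem SympCt.is (φ : SympCt n) : IsSympCt φ.perm := φ.2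

theorem SympCt.ext {φ ψ : SympCt n} (h : ∀ x, φ x = ψ x) : φ = ψ :=
  Subtype.ext (Equiv.ext h)

theorem SympCt.mul_apply (φ ψ : SympCt n) (x : V n) : (φ * ψ) x = φ (ψ x) := rfl

theorem SympCt.one_apply (x : V n) : (1 : SympCt n) x = x := rfl

/-- The compactly supported symplectomorphisms supported in `K`. -/
def SuppIn (K : Set (V n)) : Set (SympCt n) := {φ | ∀ x ∉ K, φ x = x}

/-- The `k`-th derivative as a continuous function. -/
noncomputable def jet (k : ℕ) (φ : SympCt n) : C(V n, V n [×k]→L[ℝ] V n) :=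
  ⟨iteratedFDeriv ℝ k φ, (φ.is.smooth.continuous_iteratedFDeriv (m := k) (by
    exact_mod_cast le_top))⟩

/-- The `C^∞` topology on the compactly supported symplectomorphisms supported in `K`: uniform
convergence, on compact sets, of all derivatives. -/
@[reducible] noncomputable def topIn (K : Set (V n)) : TopologicalSpace (SuppIn K) :=
  ⨅ k : ℕ, TopologicalSpace.induced (fun φ : SuppIn K => jet k φ.1) inferInstance

/-- The topology of the group: the direct limit, over the compact sets `K`, of the subgroups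
supported in `K`, each with the `C^∞` topology. -/
noncomputable instance : TopologicalSpace (SympCt n) :=
  ⨆ K : {K : Set (V n) // IsCompact K},
    TopologicalSpace.coinduced (Subtype.val : SuppIn K.1 → SympCt n) (topIn K.1)

end Pool.Agent.V1157.SY
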