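import Pool.Agent.V1157.SY.Path

/-!
# Local diffeomorphisms which are the identity outside a compact set
-/

set_option autoImplicit false

open Set Topology ContDiff Function Filter

namespace Pool.Agent.V1157.SY

/-- An injective endomorphism of a finite-dimensional space is an equivalence. -/
theorem exists_equiv {E : Type*} [NormedAddCommGroup E] [NormedSpace ℝ E]
    [FiniteDimensional ℝ E] (L : E →L[ℝ] E) (hL : Injective L) :
    ∃ e : E ≃L[ℝ] E, (e : E →L[ℝ] E) = L := by
  refine ⟨(LinearEquiv.ofInjectiveEndo (L : E →ₗ[ℝ] E) hL).toContinuousLinearEquiv, ?_⟩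
  ext x
  simp

theorem strict_of {E : Type*} [NormedAddCommGroup E] [NormedSpace ℝ E]
    [FiniteDimensional ℝ E] {a : E → E} (ha : ContDiff ℝ ∞ a)
    (hinj : ∀ x, Injective (fderiv ℝ a x)) (x : E) :
    ∃ e : E ≃L[ℝ] E, HasStrictFDerivAt a (e : E →L[ℝ] E) x := by
  obtain ⟨e, he⟩ := exists_equiv _ (hinj x)
  refine ⟨e, ?_⟩
  rw [he]
  exact ha.contDiffAt.hasStrictFDerivAt (by simp)

theorem openMap_of {E : Type*} [NormedAddCommGroup E] [NormedSpace ℝ E]
    [FiniteDimensional ℝ E] {a : E → E} (ha : ContDiff ℝ ∞ a)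
    (hinj : ∀ x, Injective (fderiv ℝ a x)) : IsOpenMap a := by
  have := FiniteDimensional.complete ℝ E
  refine isOpenMap_iff_nhds_le.2 fun x => ?_
  obtain ⟨e, he⟩ := strict_of ha hinj x
  exact he.map_nhds_eq_of_equiv.ge

theorem bij_of {E : Type*} [NormedAddCommGroup E] [NormedSpace ℝ E]
    [FiniteDimensional ℝ E] {a : E → E} (ha : ContDiff ℝ ∞ a)
    (hinj : ∀ x, Injective (fderiv ℝ a x)) {K : Set E} (hK : IsCompact K)
    (haK : ∀ x ∉ K, a x = x) : Bijective a := by
  rcases subsingleton_or_nontrivial E with hs | hs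
  · exact ⟨fun x y _ => Subsingleton.elim _ _, fun y => ⟨y, Subsingleton.elim _ _⟩⟩
  have := FiniteDimensional.complete ℝ E
  have := FiniteDimensional.proper_real E
  have hopen : IsOpenMap a := openMap_of ha hinj
  have hproper : IsProperMap a := by
    refine isProperMap_iff_tendsto_cocompact.2 ⟨ha.continuous, ?_⟩
    refine Filter.Tendsto.congr' ?_ tendsto_id
    filter_upwards [hK.compl_mem_cocompact] with x hx
    exact (haK x hx).symm
  have hclosed : IsClosedMap a := hproper.isClosedMap
  have hsurj : Surjective a := by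
    have h1 : IsClopen (range a) := ⟨hclosed.isClosed_range, hopen.isOpen_range⟩
    exact range_eq_univ.1 (h1.eq_univ (range_nonempty a))
  refine ⟨?_, hsurj⟩
  -- the set of the points with several preimages is open and closed
  let N : Set E := {y | ∃ u v, u ≠ v ∧ a u = y ∧ a v = y}
  have hN1 : IsOpen N := by
    rw [isOpen_iff_mem_nhds]
    rintro y ⟨u, v, huv, hu, hv⟩
    obtain ⟨U, W, hU, hW, huU, hvW, hUW⟩ := t2_separation huv
    have h1 : a '' U ∈ 𝓝 y := by
      rw [← hu]; exact (hopen U hU).mem_nhds (mem_image_of_mem a huU)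
    have h2 : a '' W ∈ 𝓝 y := by
      rw [← hv]; exact (hopen W hW).mem_nhds (mem_image_of_mem a hvW)
    filter_upwards [h1, h2] with z hz1 hz2
    obtain ⟨u', hu', rfl⟩ := hz1
    obtain ⟨v', hv', h⟩ := hz2
    refine ⟨u', v', fun he => ?_, rfl, h⟩
    exact disjoint_left.1 hUW hu' (he ▸ hv')
  have hN2 : IsOpen Nᶜ := by
    rw [isOpen_iff_mem_nhds]
    intro y hy
    obtain ⟨u, hu⟩ := hsurj y
    obtain ⟨e, he⟩ := strict_of ha hinj u
    have hU := (he.toOpenPartialHomeomorph a).open_source
    have hUi := (he.toOpenPartialHomeomorph a).injOn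
    have huU := he.mem_toOpenPartialHomeomorph_source
    set U := (he.toOpenPartialHomeomorph a).source with hUdef
    have h1 : IsClosed (a '' Uᶜ) := hclosed _ hU.isClosed_compl
    have h2 : y ∉ a '' Uᶜ := by
      rintro ⟨v, hv, hvy⟩
      exact hy ⟨u, v, fun h => hv (h ▸ huU), hu, hvy⟩
    filter_upwards [h1.isOpen_compl.mem_nhds h2] with z hz
    rintro ⟨u', v', huv, h3, h4⟩
    have hu' : u' ∈ U := by
      by_contra h
      exact hz ⟨u', h, h3⟩
    have hv' : v' ∈ U := by
      by_contra h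
      exact hz ⟨v', h, h4⟩
    refine huv (hUi hu' hv' ?_)
    simpa using h3.trans h4.symm
  have hN3 : N ≠ univ := by
    intro h
    have h1 : IsCompact (K ∪ a '' K) := hK.union (hK.image ha.continuous)
    have h2 : ∃ y, y ∉ K ∪ a '' K := by
      by_contra h3
      push Not at h3
      have : K ∪ a '' K = univ := eq_univ_of_forall h3
      rw [this] at h1
      have : NoncompactSpace E := NormedSpace.noncompactSpace ℝ E
      exact noncompact_univ E h1
    obtain ⟨y, hy⟩ := h2
    rw [mem_union, not_or] at hy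
    have hyN : y ∈ N := h ▸ mem_univ y
    obtain ⟨u, v, huv, hu, hv⟩ := hyN
    have hu1 : u ∉ K := fun hk => hy.2 ⟨u, hk, hu⟩
    have hv1 : v ∉ K := fun hk => hy.2 ⟨v, hk, hv⟩
    rw [haK u hu1] at hu
    rw [haK v hv1] at hv
    exact huv (hu.trans hv.symm)
  have hN4 : N = ∅ := by
    have hc : IsClopen N := ⟨isOpen_compl_iff.1 hN2, hN1⟩
    rcases isClopen_iff.1 hc with h | h
    · exact h
    · exact absurd h hN3
  intro u v h
  by_contra huv
  have : a u ∈ N := ⟨u, v, huv, rfl, h.symm⟩
  rw [hN4] at this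
  exact this

/-- Smooth families of local diffeomorphisms, equal to the identity outside a compact set, have
smooth families of inverses. -/
theorem exists_inv {E : Type*} [NormedAddCommGroup E] [NormedSpace ℝ E]
    [FiniteDimensional ℝ E] (a : ℝ → E → E) (ha : ContDiff ℝ ∞ (uncurry a))
    (hinj : ∀ s u, Injective (fderiv ℝ (a s) u)) {K : Set E} (hK : IsCompact K)
    (haK : ∀ s, ∀ x ∉ K, a s x = x) :
    ∃ b : ℝ → E → E, ContDiff ℝ ∞ (uncurry b) ∧ (∀ s x, b s (a s x) = x) ∧
      (∀ s x, a s (b s x) = x) ∧ ∀ s, ∀ x ∉ K, b s x = x := by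
  have := FiniteDimensional.complete ℝ E
  have has : ∀ s, ContDiff ℝ ∞ (a s) := fun s => ha.comp (contDiff_prodMk_right s)
  have hbij : ∀ s, Bijective (a s) := fun s => bij_of (has s) (hinj s) hK (haK s)
  let A : ℝ × E → ℝ × E := fun p => (p.1, a p.1 p.2)
  have hA : ContDiff ℝ ∞ A := contDiff_fst.prodMk ha
  have hAbij : Bijective A := by
    constructor
    · rintro ⟨s, x⟩ ⟨t, y⟩ h
      simp only [A, Prod.mk.injEq] at h
      obtain ⟨rfl, h2⟩ := h
      rw [(hbij s).1 h2]
    · rintro ⟨s, y⟩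
      obtain ⟨x, hx⟩ := (hbij s).2 y
      exact ⟨(s, x), by simp [A, hx]⟩
  have hAinj : ∀ p, Injective (fderiv ℝ A p) := by
    rintro ⟨s, u⟩
    have h1 : HasFDerivAt (uncurry a) (fderiv ℝ (uncurry a) (s, u)) (s, u) :=
      (ha.differentiable (by simp) _).hasFDerivAt
    have h2 : HasFDerivAt A ((ContinuousLinearMap.fst ℝ ℝ E).prod
        (fderiv ℝ (uncurry a) (s, u))) (s, u) := hasFDerivAt_fst.prodMk h1
    rw [h2.fderiv, injective_iff_map_eq_zero]
    rintro ⟨σ, v⟩ h
    simp only [ContinuousLinearMap.prod_apply, ContinuousLinearMap.coe_fst', Prod.mk_eq_zero] at h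
    obtain ⟨rfl, h4⟩ := h
    have h5 : HasFDerivAt (a s) ((fderiv ℝ (uncurry a) (s, u)).comp
        (ContinuousLinearMap.inr ℝ ℝ E)) u := by
      have h6 : HasFDerivAt (fun x : E => (s, x)) (ContinuousLinearMap.inr ℝ ℝ E) u :=
        hasFDerivAt_prodMk_right s u
      exact HasFDerivAt.comp (g := uncurry a) (f := fun x : E => (s, x)) u h1 h6
    have h7 := hinj s u
    rw [h5.fderiv, injective_iff_map_eq_zero] at h7
    have := h7 v (by simpa using h4)
    simp [this]
  let e : (ℝ × E) ≃ₜ (ℝ × E) := (Equiv.ofBijective A hAbij).toHomeomorphOfContinuousOpen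
    hA.continuous (openMap_of hA hAinj)
  have he : ∀ p, e p = A p := fun p => rfl
  have hes : ContDiff ℝ ∞ e.symm := by
    choose f₀ hf₀ using fun p => exists_equiv _ (hAinj p)
    refine e.contDiff_symm (f₀' := f₀) (fun p => ?_) hA
    rw [hf₀]
    exact (hA.differentiable (by simp) p).hasFDerivAt
  have hfst : ∀ p, (e.symm p).1 = p.1 := by
    intro p
    have h1 : A (e.symm p) = p := e.apply_symm_apply p
    have h2 : (A (e.symm p)).1 = p.1 := congrArg Prod.fst h1
    exact h2
  refine ⟨fun s x => (e.symm (s, x)).2, ?_, ?_, ?_, ?_⟩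
  · exact contDiff_snd.comp hes
  · intro s x
    have : e.symm (s, a s x) = (s, x) := by
      rw [Homeomorph.symm_apply_eq]; rfl
    exact congrArg Prod.snd this
  · intro s x
    have h1 : A (e.symm (s, x)) = (s, x) := e.apply_symm_apply _
    have h2 := congrArg Prod.snd h1
    have h3 := hfst (s, x)
    simp only [A] at h2 h3
    rw [h3] at h2
    exact h2
  · intro s x hx
    have : e.symm (s, x) = (s, x) := by
      rw [Homeomorph.symm_apply_eq]
      simp [he, A, haK s x hx]
    exact congrArg Prod.snd this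

end Pool.Agent.V1157.SY
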