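import Pool.Agent.V1157.SY.Defs

/-!
# Smooth families are paths
-/

set_option autoImplicit false

open Set Topology ContDiff Function

namespace Pool.Agent.V1157.SY

variable {n : ℕ}

/-- Derivatives in the space direction of a jointly smooth family are jointly smooth. -/
theorem contDiff_iter {E F : Type*} [NormedAddCommGroup E] [NormedSpace ℝ E]
    [NormedAddCommGroup F] [NormedSpace ℝ F] (f : ℝ → E → F)
    (hf : ContDiff ℝ ∞ (uncurry f)) (k : ℕ) :
    ContDiff ℝ ∞ (fun p : ℝ × E => iteratedFDeriv ℝ k (f p.1) p.2) := by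
  induction k with
  | zero =>
    have : (fun p : ℝ × E => iteratedFDeriv ℝ 0 (f p.1) p.2) =
        fun p => (continuousMultilinearCurryFin0 ℝ E F).symm (uncurry f p) := by
      funext p
      rw [iteratedFDeriv_zero_eq_comp]
      rfl
    rw [this]
    exact (continuousMultilinearCurryFin0 ℝ E F).symm.contDiff.comp hf
  | succ k ih =>
    have h1 : ContDiff ℝ ∞ (fun p : ℝ × E => fderiv ℝ (iteratedFDeriv ℝ k (f p.1)) p.2) := by
      refine ContDiff.fderiv (m := ∞) (n := ∞)
        (f := fun (p : ℝ × E) (y : E) => iteratedFDeriv ℝ k (f p.1) y)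
        (g := fun p : ℝ × E => p.2) ?_ contDiff_snd (by simp)
      have : (uncurry fun (p : ℝ × E) (y : E) => iteratedFDeriv ℝ k (f p.1) y) =
          (fun p : ℝ × E => iteratedFDeriv ℝ k (f p.1) p.2) ∘ fun q : (ℝ × E) × E =>
            (q.1.1, q.2) := rfl
      rw [this]
      exact ih.comp ((contDiff_fst.comp contDiff_fst).prodMk contDiff_snd)
    have h2 : (fun p : ℝ × E => iteratedFDeriv ℝ (k + 1) (f p.1) p.2) =
        fun p => (continuousMultilinearCurryLeftEquiv ℝ (fun _ : Fin (k + 1) => E) F).symm
          (fderiv ℝ (iteratedFDeriv ℝ k (f p.1)) p.2) := by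
      funext p
      rw [iteratedFDeriv_succ_eq_comp_left]
      rfl
    rw [h2]
    exact (continuousMultilinearCurryLeftEquiv ℝ (fun _ : Fin (k + 1) => E) F).symm.contDiff.comp
      h1

/-- A jointly smooth family of compactly supported symplectomorphisms, with a common compact
support, is a path in the group. -/
theorem joined_of_smooth (F : ℝ → SympCt n) {K : Set (V n)} (hK : IsCompact K)
    (hFK : ∀ t ∈ Icc (0 : ℝ) 1, F t ∈ SuppIn K)
    (hF : ContDiff ℝ ∞ (uncurry fun t x => F t x)) : Joined (F 0) (F 1) := by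
  let _ := topIn K
  have hc : Continuous (fun t : unitInterval => (⟨F t, hFK t t.2⟩ : SuppIn K)) := by
    refine continuous_iInf_rng.2 fun k => continuous_induced_rng.2 ?_
    refine ContinuousMap.continuous_of_continuous_uncurry _ ?_
    have h := (contDiff_iter (fun t x => F t x) hF k).continuous
    exact h.comp ((continuous_subtype_val.comp continuous_fst).prodMk continuous_snd)
  have hv : Continuous (Subtype.val : SuppIn K → SympCt n) := by
    refine continuous_iff_coinduced_le.2 ?_
    exact le_iSup (fun K : {K : Set (V n) // IsCompact K} =>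
      TopologicalSpace.coinduced (Subtype.val : SuppIn K.1 → SympCt n) (topIn K.1)) ⟨K, hK⟩
  exact ⟨⟨⟨fun t => F t, hv.comp hc⟩, rfl, rfl⟩⟩

end Pool.Agent.V1157.SY
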